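import Pool.Agent.Helper88.TU.Size
import Pool.Agent.Helper40.CG.CO

/-! # TU-CO: the number of rough points is concentrated, also for prime `n + j` -/

set_option autoImplicit false

open Finset Filter Topology

open scoped Classical

namespace Pool.Agent.Helper70.TU

open Pool.Agent.Helper88.PP (pr Rg om Sf SS uu vv ee LA VV QQ cost)
open Pool.Agent.Helper88.RR (gg ab TB WB nz DB VM)
open Pool.Agent.Helper88.GM (NI XI In)
open Pool.Agent.Helper88.TU (Su StmtTG StmtCO)
open Pool.Agent.Helper40.CG (lab lab_self prod_lab nz_lab rg vv_label_one ff VM_pos SS_pos SS_lt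
  sum_ff bracket)

/-- the second moments -/
theorem key (h : StmtTG) : ∃ c : ℝ, 0 < c ∧ ∃ E0 : ℕ, ∀ E z x y : ℕ, E0 ≤ E → Su E z x y →
    ∀ b : ℕ, b < QQ x → ∀ P : Finset ℕ, P ⊆ Icc 1 y → (P.card : ℝ) * om y z ≤ (E : ℝ) ^ 2 / 2 →
    ∀ j ∈ Icc 1 y, j ∉ P → ∀ G ⊆ P, G.card ≤ 2 →
    |∑ n ∈ NI (x / 32) x (QQ x) b, ff (E / 32) z y (n + j) ^ 2 * ∏ i ∈ G, rg y z (n + i)
      - XI (x / 32) x (QQ x) * (gg y z (G.card + 1) / VM (E / 32) z)|
      ≤ Real.exp (-(c * E)) * om y z ^ (G.card + 1) * XI (x / 32) x (QQ x) := by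
  obtain ⟨c, hc, E0, hTG⟩ := h
  obtain ⟨c', hc', hvl⟩ := Pool.Agent.Helper88.RR.vl
  obtain ⟨J, hJ⟩ := exists_nat_ge (2 / c')
  refine ⟨c, hc, max E0 (64 * 2 ^ J), ?_⟩
  intro E z x y hE hSu b hb P hP hPo j hj hjP G hG hG2
  have hE0 : E0 ≤ E := (le_max_left _ _).trans hE
  have hEJ : 64 * 2 ^ J ≤ E := (le_max_right _ _).trans hE
  have hJ1 : 1 ≤ 2 ^ J := Nat.one_le_two_pow
  have hE64 : 64 ≤ E := by omega
  have hEr : (64 : ℝ) ≤ E := by exact_mod_cast hE64
  have hz2 : 2 ≤ z := by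
    have h1 : Real.exp E ≤ z := hSu.1
    have h2 : (E : ℝ) + 1 ≤ Real.exp E := Real.add_one_le_exp _
    have h3 : (2 : ℝ) ≤ z := by linarith only [hEr, h1, h2]
    exact_mod_cast h3
  have hV := VM_pos (M := E / 32) (by omega) hz2
  have hom1 : om y z ≤ 1 := by
    obtain ⟨_, _, hom⟩ := Pool.Agent.Helper74.PP.om_lower
    exact (hom y z hz2).2
  have hjm : j ∈ insert j P := mem_insert_self _ _
  have hIn : In x (x / 32) x (QQ x) b := ⟨dvd_rfl, hb, by omega⟩
  have hq : 2 ^ J * 1 ≤ E / 16 := by omega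
  have hVV : 1 ≤ VV z 1 (2 ^ J * 1) := by
    have h1 := hvl J 1 z le_rfl hz2
    have h2 : 2 ≤ c' * J := by
      rw [div_le_iff₀ hc'] at hJ
      linarith only [hJ]
    linarith only [h1, h2]
  have hP' : insert j P ⊆ Icc 1 y := insert_subset hj hP
  have hPc : ((insert j P).card : ℝ) * om y z ≤ (E : ℝ) ^ 2 := by
    rw [card_insert_of_notMem hjP]
    push_cast
    nlinarith only [hPo, hEr, hom1]
  have hcG : (univ.filter fun i : ↥(insert j P) => (i : ℕ) ∈ G).card = G.card := by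
    rw [← card_image_of_injective _ Subtype.val_injective]
    congr 1
    ext k
    simp only [mem_image, mem_filter, mem_univ, true_and, Subtype.exists, exists_and_left,
      exists_prop, exists_eq_right_right]
    constructor
    · exact fun hk => hk.1
    · exact fun hk => ⟨hk, mem_insert_of_mem (hG hk)⟩
  have hres := hTG E z x y hE0 hSu (x / 32) x (QQ x) b hIn 1 (2 ^ J) 3 (E / 32) le_rfl hq hVV
    (by omega) le_rfl (by omega) (insert j P) hP' hPc ((SS z (z ^ (E / 32))).image (lab j G P))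
    (fun r => 1 / (VM (E / 32) z * (Nat.totient (r ⟨j, hjm⟩) : ℝ))) {⟨j, hjm⟩}
    (univ.filter fun i => (i : ℕ) ∈ G) (by simp) ?_ ?_ ?_ ?_ ?_ ?_ ?_ ?_
  · have hinj : Set.InjOn (lab j G P) (SS z (z ^ (E / 32))) := by
      intro s _ s' _ hss
      have := congrFun hss ⟨j, hjm⟩
      rwa [lab_self, lab_self] at this
    have e1 : ∀ n, ∑ r ∈ (SS z (z ^ (E / 32))).image (lab j G P),
        1 / (VM (E / 32) z * (Nat.totient (r ⟨j, hjm⟩) : ℝ)) *
          ∏ i, vv y z (r i) (n + (i : ℕ)) =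
        ff (E / 32) z y (n + j) * ∏ i ∈ G, rg y z (n + i) := by
      intro n
      rw [sum_image hinj, ff, sum_mul]
      refine sum_congr rfl fun s _ => ?_
      rw [lab_self, prod_lab hjP hG s (fun r i => vv y z r (n + i)) (by intro i; simp [vv])]
      simp only [vv_label_one]
      ring
    have e2 : ∑ r ∈ (SS z (z ^ (E / 32))).image (lab j G P),
        (1 / (VM (E / 32) z * (Nat.totient (r ⟨j, hjm⟩) : ℝ))) ^ 2 *
          (gg y z (nz r) * ∏ i, (if r i = 0 then 1 else (Nat.totient (r i) : ℝ))) =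
        gg y z (G.card + 1) / VM (E / 32) z := by
      rw [sum_image hinj]
      have e3 : ∀ s ∈ SS z (z ^ (E / 32)),
          (1 / (VM (E / 32) z * (Nat.totient (lab j G P s ⟨j, hjm⟩) : ℝ))) ^ 2 *
          (gg y z (nz (lab j G P s)) *
            ∏ i, (if lab j G P s i = 0 then 1 else (Nat.totient (lab j G P s i) : ℝ))) =
          gg y z (G.card + 1) / VM (E / 32) z * (1 / (VM (E / 32) z * (Nat.totient s : ℝ))) := by
        intro s hs
        have hs1 := SS_pos hs
        have hs0 : (0 : ℝ) < Nat.totient s := by exact_mod_cast Nat.totient_pos.2 hs1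
        rw [lab_self, nz_lab hjP hG (by omega),
          prod_lab hjP hG s (fun r _ => if r = 0 then 1 else (Nat.totient r : ℝ)) (by simp)]
        rw [if_neg (by omega)]
        simp only [one_ne_zero, if_false, Nat.totient_one, Nat.cast_one, prod_const_one, mul_one]
        field_simp
      rw [sum_congr rfl e3, ← mul_sum, sum_ff (by omega) hz2, mul_one]
    have e4 : ∀ n, (ff (E / 32) z y (n + j) * ∏ i ∈ G, rg y z (n + i)) ^ 2 =
        ff (E / 32) z y (n + j) ^ 2 * ∏ i ∈ G, rg y z (n + i) := by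
      intro n
      rw [mul_pow, ← prod_pow]
      congr 1
      refine prod_congr rfl fun i _ => ?_
      unfold rg
      split_ifs <;> simp
    simp only [e1, e2, e4] at hres
    rw [card_singleton, hcG, add_comm 1] at hres
    exact hres
  · -- card G
    rw [hcG]
    exact hG2
  · rw [disjoint_singleton_left, mem_filter]
    rintro ⟨-, hjG⟩
    exact hjP (hG hjG)
  · intro r hr i hiF hiG
    obtain ⟨s, hs, rfl⟩ := mem_image.1 hr
    left
    have h1 : (i : ℕ) ≠ j := by
      intro h1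
      apply hiF
      rw [mem_singleton]
      exact Subtype.ext h1
    have h2 : (i : ℕ) ∉ G := by
      intro h2
      exact hiG (mem_filter.2 ⟨mem_univ _, h2⟩)
    simp [lab, h1, h2]
  · intro r hr i hi
    obtain ⟨s, hs, rfl⟩ := mem_image.1 hr
    rw [mem_singleton] at hi
    rw [hi, lab_self]
    exact hs
  · intro r hr i hi
    obtain ⟨s, hs, rfl⟩ := mem_image.1 hr
    have h2 : (i : ℕ) ∈ G := (mem_filter.1 hi).2
    have h1 : (i : ℕ) ≠ j := by
      intro h1
      rw [h1] at h2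
      exact hjP (hG h2)
    left
    simp [lab, h1, h2]
  · intro r hr
    obtain ⟨s, hs, rfl⟩ := mem_image.1 hr
    have hs1 := SS_pos hs
    rw [nz_lab hjP hG (by omega)]
    omega
  · intro r hr
    obtain ⟨s, hs, rfl⟩ := mem_image.1 hr
    have hs1 := SS_pos hs
    have hs2 := SS_lt hs
    rw [prod_lab hjP hG s (fun r _ => max 1 r) (by simp)]
    simp only [max_self, prod_const_one, mul_one]
    rw [max_eq_right hs1]
    exact hs2.le.trans (Nat.pow_le_pow_right (by omega) (by omega))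
  · intro r hr
    obtain ⟨s, hs, rfl⟩ := mem_image.1 hr
    have hs1 := SS_pos hs
    rw [abs_of_nonneg (by positivity)]
    rw [prod_eq_single (⟨j, hjm⟩ : ↥(insert j P))]
    · rw [if_pos (mem_singleton_self _)]
    · intro i _ hij
      have h1 : (i : ℕ) ≠ j := fun h1 => hij (Subtype.ext h1)
      rw [if_neg (by rw [mem_singleton]; exact hij)]
      by_cases h2 : (i : ℕ) ∈ G
      · have h3 : i ∈ (univ.filter fun i : ↥(insert j P) => (i : ℕ) ∈ G) :=
          mem_filter.2 ⟨mem_univ _, h2⟩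
        rw [if_pos h3]
        simp [lab, h1, h2]
      · have h3 : i ∉ (univ.filter fun i : ↥(insert j P) => (i : ℕ) ∈ G) :=
          fun h4 => h2 (mem_filter.1 h4).2
        rw [if_neg h3]
        simp [lab, h1, h2]
    · intro h1
      exact absurd (mem_univ _) h1

/-! ## Sizes -/

/-- The final error term. -/
theorem err_small {c : ℝ} (hc : 0 < c) : ∃ E0 : ℕ, ∀ E : ℕ, E0 ≤ E →
    Real.exp (-(c * E)) * (2 * (E : ℝ) ^ 4) ≤ 1 / E := by
  have h1 : Tendsto (fun w : ℝ => w ^ 5 * Real.exp (-w)) atTop (𝓝 0) :=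
    Real.tendsto_pow_mul_exp_neg_atTop_nhds_zero 5
  have h2 : Tendsto (fun E : ℕ => c * (E : ℝ)) atTop atTop :=
    Tendsto.const_mul_atTop hc tendsto_natCast_atTop_atTop
  have h3 := (h1.comp h2).eventually (gt_mem_nhds (show (0 : ℝ) < c ^ 5 / 2 by positivity))
  obtain ⟨E0, hE0⟩ := eventually_atTop.1 h3
  refine ⟨max E0 1, fun E hE => ?_⟩
  have h4 := hE0 E ((le_max_left _ _).trans hE)
  simp only [Function.comp] at h4
  have hE1 : (1 : ℝ) ≤ E := by exact_mod_cast (le_max_right _ _).trans hE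
  rw [le_div_iff₀ (by linarith)]
  have h5 : (c * (E : ℝ)) ^ 5 * Real.exp (-(c * E)) =
      c ^ 5 * ((E : ℝ) ^ 5 * Real.exp (-(c * E))) := by ring
  rw [h5] at h4
  have hc5 : 0 < c ^ 5 := by positivity
  have h6 : (E : ℝ) ^ 5 * Real.exp (-(c * E)) < 1 / 2 := by
    by_contra hcon
    push Not at hcon
    have := mul_le_mul_of_nonneg_left hcon hc5.le
    linarith
  calc Real.exp (-(c * E)) * (2 * (E : ℝ) ^ 4) * E =
      2 * ((E : ℝ) ^ 5 * Real.exp (-(c * E))) := by ring
    _ ≤ 1 := by linarith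

/-! ## The theorem -/

theorem co (h : StmtTG) : StmtCO := by
  obtain ⟨c, hc, E1, hkey⟩ := key h
  obtain ⟨E2, herr⟩ := err_small hc
  obtain ⟨E3, hsize⟩ := Pool.Agent.Helper88.TU.size
  obtain ⟨cm, Cm, hcm, hCm, hma⟩ := Pool.Agent.Helper24.PP.ma
  refine ⟨17 * (64 / cm) + 1, by positivity, max (max (max E1 E2) E3) 256, ?_⟩
  intro E z x y hE hSu b hb P hP hPo j hj hjP
  have hE3 : E3 ≤ E := ((le_max_right _ _).trans (le_max_left _ _)).trans hE
  have hE12 : max E1 E2 ≤ E := ((le_max_left _ _).trans (le_max_left _ _)).trans hE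
  have hE1 : E1 ≤ E := (le_max_left _ _).trans hE12
  have hE2 : E2 ≤ E := (le_max_right _ _).trans hE12
  have hE256 : 256 ≤ E := (le_max_right _ _).trans hE
  have hEr : (256 : ℝ) ≤ E := by exact_mod_cast hE256
  have hzE : Real.exp E ≤ z := hSu.1
  have hz32 : 256 ≤ z := by
    have h2 : (E : ℝ) + 1 ≤ Real.exp E := Real.add_one_le_exp _
    have h3 : (256 : ℝ) ≤ z := by linarith only [hEr, hzE, h2]
    exact_mod_cast h3
  have hzx : z ^ E ≤ x := hSu.2.1
  obtain ⟨a1, a2, a3, a4, a5, a6, a7, a8, a9, a10, a11, a12, a13, a14⟩ :=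
    hsize E z x y hE3 hSu
  have hy16 : 16 ≤ y := by nlinarith only [hE256, a6]
  have ho1 : om y z ≤ 1 := by
    obtain ⟨_, _, hom⟩ := Pool.Agent.Helper74.PP.om_lower
    exact (hom y z (by omega)).2
  have ho0 : 0 ≤ om y z := by
    obtain ⟨c₁, hc₁, hom⟩ := Pool.Agent.Helper74.PP.om_lower
    have hlz : 0 < Real.log z := Real.log_pos (by exact_mod_cast (by omega : 1 < z))
    exact le_trans (by positivity) (hom y z (by omega)).1
  set V := VM (E / 32) z with hV
  have hV0 : 0 < V := VM_pos (by omega) (by omega)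
  have hVE : cm * (E / 64) ≤ V := by
    have h1 := (hma z (E / 32) (by omega) (by omega)).1
    refine le_trans ?_ h1
    apply mul_le_mul_of_nonneg_left _ hcm.le
    rw [div_le_iff₀ (by norm_num)]
    have h2 : E ≤ (E / 32) * 64 := by omega
    exact_mod_cast h2
  set XX := XI (x / 32) x (QQ x) with hXX
  have hXX0 : 0 ≤ XX := by
    rw [hXX, XI]; positivity
  set NN := NI (x / 32) x (QQ x) b with hNN
  set f : ℕ → ℝ := fun n => ff (E / 32) z y (n + j) ^ 2 with hf
  set o := om y z with ho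
  set e := Real.exp (-(c * E)) with he
  have he0 : 0 ≤ e := (Real.exp_pos _).le
  set N := P.card with hN
  have hNy : N ≤ y := by
    have := card_le_card hP
    simpa using this
  -- primes
  have hprime : ∀ n ∈ NN, (n + j).Prime → f n = 1 := by
    intro n hn hp
    have hn1 : x / 32 < n := by
      rw [hNN, NI, mem_filter, mem_Ioc] at hn
      exact hn.1.1
    have hj1 : 1 ≤ j := (mem_Icc.1 hj).1
    have hzn : z ^ (E / 32) ≤ n := by
      by_contra hcon
      push Not at hcon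
      have h1 : z ^ (E / 32) * 32 ≤ x := by
        calc z ^ (E / 32) * 32 ≤ z ^ (E / 32) * z := Nat.mul_le_mul_left _ (by omega)
          _ = z ^ (E / 32 + 1) := (pow_succ _ _).symm
          _ ≤ z ^ E := Nat.pow_le_pow_right (by omega) (by omega)
          _ ≤ x := hzx
      omega
    have h1 : ff (E / 32) z y (n + j) = 1 := by
      rw [← sum_ff (M := E / 32) (z := z) (by omega) (by omega), ff]
      refine sum_congr rfl fun s hs => ?_
      rw [Pool.Agent.Helper59.RR.vv_one (by omega) (by omega) hp hzn (by omega) hs, mul_one]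
    simp only [hf, h1, one_pow]
  -- the sum
  have hS : ∀ n, (((P.filter (fun h => Rg y z (n + h))).card : ℝ)) = ∑ i ∈ P, rg y z (n + i) := by
    intro n
    rw [card_filter]
    push_cast
    rfl
  set μ : ℝ := N * om y z with hμ
  have hμ0 : 0 ≤ μ := by positivity
  set MM : Finset ℕ → ℝ := fun G => ∑ n ∈ NN, f n * ∏ i ∈ G, rg y z (n + i) with hMM
  have hexp : ∑ n ∈ NN, f n * ((((P.filter (fun h => Rg y z (n + h))).card : ℝ)) - μ) ^ 2 =
      ∑ i ∈ P, ∑ i' ∈ P.erase i, MM {i, i'} + (1 - 2 * μ) * ∑ i ∈ P, MM {i} + μ ^ 2 * MM ∅ := by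
    have e1 : ∀ n, f n * ((((P.filter (fun h => Rg y z (n + h))).card : ℝ)) - μ) ^ 2 =
        ∑ i ∈ P, ∑ i' ∈ P.erase i, f n * ∏ k ∈ {i, i'}, rg y z (n + k) +
        (1 - 2 * μ) * ∑ i ∈ P, f n * ∏ k ∈ {i}, rg y z (n + k) +
          μ ^ 2 * (f n * ∏ k ∈ (∅ : Finset ℕ), rg y z (n + k)) := by
      intro n
      rw [hS n]
      have e2 : ∀ i ∈ P, ∑ i' ∈ P.erase i, f n * ∏ k ∈ {i, i'}, rg y z (n + k) =
          f n * (rg y z (n + i) * ∑ i' ∈ P, rg y z (n + i')) - f n * rg y z (n + i) := by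
        intro i hi
        have e3 : ∀ i' ∈ P.erase i, f n * ∏ k ∈ {i, i'}, rg y z (n + k) =
            f n * rg y z (n + i) * rg y z (n + i') := by
          intro i' hi'
          rw [prod_pair (ne_of_mem_erase hi').symm]
          ring
        rw [sum_congr rfl e3, ← mul_sum, ← add_sum_erase P _ hi]
        have e4 : rg y z (n + i) * rg y z (n + i) = rg y z (n + i) := by
          unfold rg
          split_ifs <;> simp
        rw [mul_add, e4]
        ring
      rw [sum_congr rfl e2]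
      simp only [prod_singleton, prod_empty, sum_sub_distrib, ← mul_sum]
      rw [← sum_mul]
      ring
    rw [sum_congr rfl fun n _ => e1 n, sum_add_distrib, sum_add_distrib, ← mul_sum, ← mul_sum]
    congr 1
    congr 1
    · rw [sum_comm]
      refine sum_congr rfl fun i _ => ?_
      rw [sum_comm]
    · congr 1
      rw [sum_comm]
  have hk : ∀ G ⊆ P, G.card ≤ 2 →
      |MM G - XX * (gg y z (G.card + 1) / V)| ≤ e * o ^ (G.card + 1) * XX := by
    intro G hG hG2
    exact hkey E z x y hE1 hSu b hb P hP hPo j hj hjP G hG hG2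
  have hm2 : ∀ i ∈ P, ∀ i' ∈ P.erase i, MM {i, i'} ≤ XX * (gg y z 3 / V) + e * o ^ 3 * XX := by
    intro i hi i' hi'
    have hne : i ≠ i' := (ne_of_mem_erase hi').symm
    have h1 := hk {i, i'} (by
      intro k hk
      rw [mem_insert, mem_singleton] at hk
      rcases hk with rfl | rfl
      · exact hi
      · exact mem_of_mem_erase hi') (by rw [card_pair hne])
    rw [card_pair hne] at h1
    have := (abs_le.1 h1).2
    linarith only [this]
  have hm1 : ∀ i ∈ P, |MM {i} - XX * (gg y z 2 / V)| ≤ e * o ^ 2 * XX := by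
    intro i hi
    have h1 := hk {i} (singleton_subset_iff.2 hi) (by simp)
    rwa [card_singleton] at h1
  have hm0 : MM ∅ ≤ XX * (gg y z 1 / V) + e * o * XX := by
    have h1 := hk ∅ (empty_subset _) (by simp)
    rw [card_empty, zero_add, pow_one] at h1
    have := (abs_le.1 h1).2
    linarith only [this]
  have hN0 : (0 : ℝ) ≤ N := Nat.cast_nonneg N
  have hcard : ∀ i ∈ P, ((P.erase i).card : ℝ) = N - 1 := by
    intro i hi
    rw [card_erase_of_mem hi]
    have : 1 ≤ P.card := card_pos.2 ⟨i, hi⟩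
    push_cast [Nat.cast_sub this]
    rfl
  have t1 : ∑ i ∈ P, ∑ i' ∈ P.erase i, MM {i, i'} ≤
      N * ((N - 1) * (XX * (gg y z 3 / V) + e * o ^ 3 * XX)) := by
    calc ∑ i ∈ P, ∑ i' ∈ P.erase i, MM {i, i'} ≤
        ∑ i ∈ P, ((N : ℝ) - 1) * (XX * (gg y z 3 / V) + e * o ^ 3 * XX) := by
          refine sum_le_sum fun i hi => ?_
          refine (sum_le_sum (hm2 i hi)).trans (le_of_eq ?_)
          rw [sum_const, nsmul_eq_mul, hcard i hi]
      _ = _ := by rw [sum_const, nsmul_eq_mul]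
  have t2 : |∑ i ∈ P, MM {i} - N * (XX * (gg y z 2 / V))| ≤ N * (e * o ^ 2 * XX) := by
    have e' : ∑ i ∈ P, MM {i} - N * (XX * (gg y z 2 / V)) =
        ∑ i ∈ P, (MM {i} - XX * (gg y z 2 / V)) := by
      rw [sum_sub_distrib, sum_const, nsmul_eq_mul]
    rw [e']
    refine (abs_sum_le_sum_abs _ _).trans ((sum_le_sum hm1).trans (le_of_eq ?_))
    rw [sum_const, nsmul_eq_mul]
  have t3 : (1 - 2 * μ) * ∑ i ∈ P, MM {i} ≤
      (1 - 2 * μ) * (N * (XX * (gg y z 2 / V))) + (1 + 2 * μ) * (N * (e * o ^ 2 * XX)) := by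
    have h1 : (1 - 2 * μ) * (∑ i ∈ P, MM {i} - N * (XX * (gg y z 2 / V))) ≤
        |1 - 2 * μ| * (N * (e * o ^ 2 * XX)) := by
      refine (le_abs_self _).trans ?_
      rw [abs_mul]
      exact mul_le_mul_of_nonneg_left t2 (abs_nonneg _)
    have h2 : |1 - 2 * μ| ≤ 1 + 2 * μ := by
      rw [abs_le]; constructor <;> linarith only [hμ0]
    have h3 : |1 - 2 * μ| * (N * (e * o ^ 2 * XX)) ≤ (1 + 2 * μ) * (N * (e * o ^ 2 * XX)) :=
      mul_le_mul_of_nonneg_right h2 (by positivity)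
    linarith only [h1, h3]
  have t4 : μ ^ 2 * MM ∅ ≤ μ ^ 2 * (XX * (gg y z 1 / V) + e * o * XX) :=
    mul_le_mul_of_nonneg_left hm0 (by positivity)
  have hmain : ∑ n ∈ NN.filter (fun n => (n + j).Prime),
      (((P.filter (fun h => Rg y z (n + h))).card : ℝ) - μ) ^ 2 ≤
      ∑ n ∈ NN, f n * ((((P.filter (fun h => Rg y z (n + h))).card : ℝ)) - μ) ^ 2 := by
    calc ∑ n ∈ NN.filter (fun n => (n + j).Prime),
        (((P.filter (fun h => Rg y z (n + h))).card : ℝ) - μ) ^ 2 =
        ∑ n ∈ NN.filter (fun n => (n + j).Prime),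
          f n * (((P.filter (fun h => Rg y z (n + h))).card : ℝ) - μ) ^ 2 := by
          refine sum_congr rfl fun n hn => ?_
          rw [mem_filter] at hn
          rw [hprime n hn.1 hn.2, one_mul]
      _ ≤ _ := by
          refine sum_le_sum_of_subset_of_nonneg (filter_subset _ _) fun n _ _ => ?_
          exact mul_nonneg (sq_nonneg _) (sq_nonneg _)
  refine hmain.trans ?_
  rw [hexp]
  have hbr := bracket (z := z) hy16 hNy ho0 ho1
  rw [← hμ] at hbr
  have hAV : 0 ≤ XX / V := by positivity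
  have hbr2 := mul_le_mul_of_nonneg_left hbr hAV
  have hδb : N * ((N - 1) * (e * o ^ 3 * XX)) + (1 + 2 * μ) * (N * (e * o ^ 2 * XX)) +
      μ ^ 2 * (e * o * XX) ≤ XX * (o / E) := by
    have h3 : N * ((N - 1) * (e * o ^ 3 * XX)) + (1 + 2 * μ) * (N * (e * o ^ 2 * XX)) +
        μ ^ 2 * (e * o * XX) = XX * o * (e * ((μ ^ 2 - μ * o) + (1 + 2 * μ) * μ + μ ^ 2)) := by
      rw [hμ]; ring
    have h4 : (μ ^ 2 - μ * o) + (1 + 2 * μ) * μ + μ ^ 2 ≤ 2 * (E : ℝ) ^ 4 := by
      have h41 : μ ≤ (E : ℝ) ^ 2 / 2 := hPo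
      have h42 : 0 ≤ μ * o := by positivity
      have h43 : μ ^ 2 ≤ ((E : ℝ) ^ 2 / 2) ^ 2 := pow_le_pow_left₀ hμ0 h41 2
      have h44 : (1 : ℝ) ≤ (E : ℝ) ^ 2 := by nlinarith only [hEr]
      nlinarith only [hPo, h42, h43, h44]
    have h5 := herr E hE2
    have h6 : e * ((μ ^ 2 - μ * o) + (1 + 2 * μ) * μ + μ ^ 2) ≤ 1 / E :=
      (mul_le_mul_of_nonneg_left h4 he0).trans h5
    rw [h3]
    calc XX * o * (e * ((μ ^ 2 - μ * o) + (1 + 2 * μ) * μ + μ ^ 2)) ≤ XX * o * (1 / E) :=
          mul_le_mul_of_nonneg_left h6 (by positivity)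
      _ = XX * (o / E) := by ring
  have hmainb : XX / V * (17 * (om y z * μ)) ≤ 17 * (64 / cm) * (XX * (om y z / E)) * μ := by
    have h1 : XX / V ≤ XX / (cm * (E / 64)) := by
      apply div_le_div_of_nonneg_left hXX0 (by positivity) hVE
    calc XX / V * (17 * (om y z * μ)) ≤ XX / (cm * (E / 64)) * (17 * (om y z * μ)) :=
          mul_le_mul_of_nonneg_right h1 (by positivity)
      _ = _ := by field_simp
  have hfin : 17 * (64 / cm) * (XX * (om y z / E)) * μ + XX * (om y z / E) ≤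
      (17 * (64 / cm) + 1) * (XX * (om y z / E)) * (μ + 1) := by
    have h1 : 0 ≤ XX * (om y z / E) := by positivity
    have h2 : 0 ≤ 17 * (64 / cm) := by positivity
    nlinarith only [h1, hμ0, h2, mul_nonneg h1 hμ0, mul_nonneg h2 h1]
  have e5 : XX / V * (N * (N - 1) * gg y z 3 + (1 - 2 * μ) * N * gg y z 2 + μ ^ 2 * gg y z 1) =
      N * ((N - 1) * (XX * (gg y z 3 / V))) + (1 - 2 * μ) * (N * (XX * (gg y z 2 / V))) +
        μ ^ 2 * (XX * (gg y z 1 / V)) := by ring
  rw [e5] at hbr2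
  have e6 : N * ((N - 1) * (XX * (gg y z 3 / V) + e * o ^ 3 * XX)) =
      N * ((N - 1) * (XX * (gg y z 3 / V))) + N * ((N - 1) * (e * o ^ 3 * XX)) := by ring
  have e7 : μ ^ 2 * (XX * (gg y z 1 / V) + e * o * XX) =
      μ ^ 2 * (XX * (gg y z 1 / V)) + μ ^ 2 * (e * o * XX) := by ring
  rw [e6] at t1
  rw [e7] at t4
  linarith only [t1, t3, t4, hbr2, hδb, hmainb, hfin]

end Pool.Agent.Helper70.TU
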